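import Pool.Agent.H29.DW.Targets
import Pool.Agent.H29.DW.Tools
import Pool.Agent.H61.GLB.TF

/-!
# (DI) the average of the diagonal
-/

set_option autoImplicit false

open NumberField NumberField.InfinitePlace NumberField.Units
  NumberField.Units.dirichletUnitTheorem MeasureTheory Set Filter Complex
open scoped nonZeroDivisors ENNReal

namespace Pool.Agent.H39.DW

open Pool.Agent.H25.HK Pool.Agent.H23.LB Pool.Agent.H23.LC Pool.Agent.H29.DW
open Pool.Agent.H61.GLB (countable_K yM_add yM_cont yM_unit eM mem_unit)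

/-! ### Products of integrals -/

theorem lint_marg {ι : Type} [Fintype ι] [DecidableEq ι] (μ : ι → Measure ℝ)
    [∀ i, SigmaFinite (μ i)] (f : ι → ℝ → ℝ≥0∞) (hf : ∀ i, Measurable (f i)) (s : Finset ι) :
    ∀ x : ι → ℝ, lmarginal μ s (fun x => ∏ i, f i (x i)) x =
      (∏ i ∈ s, ∫⁻ y, f i y ∂(μ i)) * ∏ i ∈ sᶜ, f i (x i) := by
  induction s using Finset.induction_on with
  | empty =>
    intro x
    simp
  | insert a s ha ih =>
    intro x
    have hm : Measurable (fun x : ι → ℝ => ∏ i, f i (x i)) :=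
      Finset.measurable_fun_prod _ (fun i _ => (hf i).comp (measurable_pi_apply i))
    rw [lmarginal_insert _ hm ha]
    have h1 : sᶜ = insert a (insert a s)ᶜ := by
      ext i
      simp only [Finset.mem_compl, Finset.mem_insert]
      constructor
      · intro h
        by_cases hi : i = a
        · exact Or.inl hi
        · exact Or.inr (fun h' => h'.elim hi h)
      · rintro (h | h)
        · rw [h]; exact ha
        · exact fun h' => h (Or.inr h')
    have h2 : a ∉ (insert a s)ᶜ := by simp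
    have h3 : ∀ y : ℝ, lmarginal μ s (fun x => ∏ i, f i (x i)) (Function.update x a y) =
        f a y * ((∏ i ∈ s, ∫⁻ y, f i y ∂(μ i)) * ∏ i ∈ (insert a s)ᶜ, f i (x i)) := by
      intro y
      rw [ih, h1, Finset.prod_insert h2, Function.update_self]
      have h4 : ∏ i ∈ (insert a s)ᶜ, f i (Function.update x a y i) =
          ∏ i ∈ (insert a s)ᶜ, f i (x i) := by
        refine Finset.prod_congr rfl fun i hi => ?_
        rw [Function.update_of_ne (fun h : i = a => h2 (by subst h; exact hi))]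
      rw [h4]
      ring
    rw [lintegral_congr h3, lintegral_mul_const _ (hf a), Finset.prod_insert ha]
    ring

theorem lint_prod {ι : Type} [Fintype ι] (μ : ι → Measure ℝ)
    [∀ i, SigmaFinite (μ i)] (f : ι → ℝ → ℝ≥0∞) (hf : ∀ i, Measurable (f i)) :
    ∫⁻ x, ∏ i, f i (x i) ∂(Measure.pi μ) = ∏ i, ∫⁻ y, f i y ∂(μ i) := by
  classical
  have x : ι → ℝ := fun _ => 0
  rw [lintegral_eq_lmarginal_univ x, lint_marg μ f hf]
  simp

/-! ### Rotations -/

theorem per_add (f : ℝ → ℝ≥0∞) (hf : Function.Periodic f (2 * Real.pi)) (α : ℝ) :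
    ∫⁻ θ in Icc (0 : ℝ) (2 * Real.pi), f (θ + α) = ∫⁻ θ in Icc (0 : ℝ) (2 * Real.pi), f θ := by
  have h0 : (0 : ℝ) < 2 * Real.pi := by positivity
  rw [show (volume.restrict (Icc (0 : ℝ) (2 * Real.pi))) = volume.restrict (Ioc 0 (2 * Real.pi))
    from Measure.restrict_congr_set Ioc_ae_eq_Icc.symm]
  have h1 : ∫⁻ θ in Ioc (0 : ℝ) (2 * Real.pi), f (θ + α) =
      ∫⁻ θ in Ioc α (α + 2 * Real.pi), f θ := by
    have h3 := lintegral_add_right_eq_self (μ := (volume : Measure ℝ))
      ((Ioc α (α + 2 * Real.pi)).indicator f) α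
    rw [← lintegral_indicator measurableSet_Ioc, ← lintegral_indicator measurableSet_Ioc, ← h3]
    refine lintegral_congr fun θ => ?_
    by_cases hθ : θ ∈ Ioc (0 : ℝ) (2 * Real.pi)
    · rw [indicator_of_mem hθ, indicator_of_mem]
      exact ⟨by linarith [hθ.1], by linarith [hθ.2]⟩
    · rw [indicator_of_notMem hθ, indicator_of_notMem]
      intro h
      exact hθ ⟨by linarith [h.1], by linarith [h.2]⟩
  rw [h1]
  have h2 := (isAddFundamentalDomain_Ioc h0 α).setLIntegral_eq (isAddFundamentalDomain_Ioc h0 0) f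
    (fun g x => by
      obtain ⟨g, hg⟩ := g
      obtain ⟨n, rfl⟩ := AddSubgroup.mem_zmultiples_iff.1 hg
      change f (n • (2 * Real.pi) + x) = f x
      rw [add_comm]
      exact hf.zsmul n x)
  rw [zero_add] at h2
  exact h2

theorem per_neg (f : ℝ → ℝ≥0∞) (hf : Function.Periodic f (2 * Real.pi)) :
    ∫⁻ θ in Icc (0 : ℝ) (2 * Real.pi), f (-θ) = ∫⁻ θ in Icc (0 : ℝ) (2 * Real.pi), f θ := by
  have h1 : ∫⁻ θ in Icc (0 : ℝ) (2 * Real.pi), f (-θ) =
      ∫⁻ θ in Icc (0 : ℝ) (2 * Real.pi), f θ := by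
    have h2 : ∀ θ : ℝ, f (-θ) = f (2 * Real.pi - θ) := by
      intro θ
      rw [← hf (-θ)]
      congr 1
      ring
    have h3 := lintegral_sub_left_eq_self (μ := (volume : Measure ℝ))
      ((Icc (0 : ℝ) (2 * Real.pi)).indicator f) (2 * Real.pi)
    rw [lintegral_congr h2, ← lintegral_indicator measurableSet_Icc,
      ← lintegral_indicator measurableSet_Icc, ← h3]
    refine lintegral_congr fun θ => ?_
    by_cases hθ : θ ∈ Icc (0 : ℝ) (2 * Real.pi)
    · rw [indicator_of_mem hθ, indicator_of_mem]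
      exact ⟨by linarith [hθ.2], by linarith [hθ.1]⟩
    · rw [indicator_of_notMem hθ, indicator_of_notMem]
      intro h
      exact hθ ⟨by linarith [h.2], by linarith [h.1]⟩
  exact h1

theorem real_val (F : ℂ → ℝ≥0∞) (a : ℂ) :
    ∫⁻ θ in Icc (0 : ℝ) (2 * Real.pi), F (a * aq true θ) =
      ENNReal.ofReal Real.pi * (F a + F (-a)) := by
  have hpi := Real.pi_pos
  have h1 : Icc (0 : ℝ) (2 * Real.pi) = Ico 0 Real.pi ∪ Icc Real.pi (2 * Real.pi) := by
    rw [Ico_union_Icc_eq_Icc hpi.le (by linarith)]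
  have h2 : Disjoint (Ico (0 : ℝ) Real.pi) (Icc Real.pi (2 * Real.pi)) := by
    rw [Set.disjoint_left]
    intro x hx hx'
    exact absurd hx'.1 (not_le.2 hx.2)
  rw [h1, lintegral_union measurableSet_Icc h2]
  have h3 : ∫⁻ θ in Ico (0 : ℝ) Real.pi, F (a * aq true θ) = ENNReal.ofReal Real.pi * F a := by
    rw [setLIntegral_congr_fun measurableSet_Ico (g := fun _ => F a) (fun θ hθ => by
      unfold aq
      simp [hθ.2]), setLIntegral_const, Real.volume_Ico, sub_zero, mul_comm]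
  have h4 : ∫⁻ θ in Icc Real.pi (2 * Real.pi), F (a * aq true θ) =
      ENNReal.ofReal Real.pi * F (-a) := by
    rw [setLIntegral_congr_fun measurableSet_Icc (g := fun _ => F (-a)) (fun θ hθ => by
      unfold aq
      simp [not_lt.2 hθ.1]), setLIntegral_const, Real.volume_Icc,
      show 2 * Real.pi - Real.pi = Real.pi by ring, mul_comm]
  rw [h3, h4, mul_add]

theorem rot_pos (F : ℂ → ℝ≥0∞) (r : Bool) (a : ℂ) (ha : Rl r a) :
    ∫⁻ θ in Icc (0 : ℝ) (2 * Real.pi), F (a * aq r θ) =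
      ∫⁻ θ in Icc (0 : ℝ) (2 * Real.pi), F (((‖a‖ : ℝ) : ℂ) * aq r θ) := by
  cases r
  · have h1 : ∀ θ : ℝ, F (a * aq false θ) =
        (fun θ : ℝ => F (((‖a‖ : ℝ) : ℂ) * aq false θ)) (θ + Complex.arg a) := by
      intro θ
      simp only [aq, Bool.false_eq_true, if_false]
      congr 1
      conv_lhs => rw [← Complex.norm_mul_exp_arg_mul_I a]
      rw [mul_assoc, ← Complex.exp_add]
      congr 2
      push_cast
      ring
    rw [lintegral_congr h1]
    refine per_add (fun θ : ℝ => F (((‖a‖ : ℝ) : ℂ) * aq false θ)) ?_ (Complex.arg a)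
    intro θ
    simp only [aq, Bool.false_eq_true, if_false]
    congr 2
    rw [show (((θ + 2 * Real.pi : ℝ) : ℂ) * I) = θ * I + 2 * Real.pi * I by push_cast; ring]
    exact Complex.exp_periodic _
  · rw [real_val, real_val]
    have h1 : a.im = 0 := ha rfl
    have h2 : a = ((a.re : ℝ) : ℂ) := by
      apply Complex.ext
      · simp
      · simp [h1]
    have h3 : ‖a‖ = |a.re| := by
      rw [h2]
      simp
    rw [h3]
    rcases abs_cases a.re with h | h
    · rw [h.1, ← h2]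
    · rw [h.1]
      push_cast
      rw [← h2, neg_neg, add_comm]

theorem rot_conj (F : ℂ → ℝ≥0∞) (r : Bool) (a : ℂ) :
    ∫⁻ θ in Icc (0 : ℝ) (2 * Real.pi), F (a * (starRingEnd ℂ) (aq r θ)) =
      ∫⁻ θ in Icc (0 : ℝ) (2 * Real.pi), F (a * aq r θ) := by
  cases r
  · have h1 : ∀ θ : ℝ, F (a * (starRingEnd ℂ) (aq false θ)) =
        (fun θ : ℝ => F (a * aq false θ)) (-θ) := by
      intro θ
      simp only [aq, Bool.false_eq_true, if_false]
      congr 2
      rw [← Complex.exp_conj]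
      congr 1
      simp
    rw [lintegral_congr h1]
    refine per_neg (fun θ : ℝ => F (a * aq false θ)) ?_
    intro θ
    simp only [aq, Bool.false_eq_true, if_false]
    congr 2
    rw [show (((θ + 2 * Real.pi : ℝ) : ℂ) * I) = θ * I + 2 * Real.pi * I by push_cast; ring]
    exact Complex.exp_periodic _
  · refine lintegral_congr fun θ => ?_
    rw [Complex.conj_eq_iff_im.2 (aq_real θ)]

/-! ### The average over the angles -/

/-- the square of the test function, averaged over the angles -/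
noncomputable def fa (r : Bool) (c : ℂ) (H : ℝ) (p : ℂ → ℂ) (a : ℝ) : ℝ≥0∞ :=
  ∫⁻ θ in Icc (0 : ℝ) (2 * Real.pi), ENNReal.ofReal (‖tw1 c H p ((a : ℂ) * aq r θ)‖ ^ 2)

theorem tw1_cont (c : ℂ) (H : ℝ) {p : ℂ → ℂ} (hp : Continuous p) : Continuous (tw1 c H p) := by
  unfold tw1 chp
  fun_prop

theorem fa_meas (r : Bool) (c : ℂ) (H : ℝ) {p : ℂ → ℂ} (hp : Continuous p) :
    Measurable (fa r c H p) := by
  unfold fa
  have h : Measurable (fun q : ℝ × ℝ =>
      ENNReal.ofReal (‖tw1 c H p ((q.1 : ℂ) * aq r q.2)‖ ^ 2)) := by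
    have h1 : Measurable (fun q : ℝ × ℝ => (q.1 : ℂ) * aq r q.2) :=
      (Complex.measurable_ofReal.comp measurable_fst).mul ((measurable_aq r).comp measurable_snd)
    exact (((tw1_cont c H hp).measurable.comp h1).norm.pow_const 2).ennreal_ofReal
  exact h.lintegral_prod_right'

theorem fa_zero (r : Bool) (c : ℂ) {H : ℝ} {p : ℂ → ℂ} (hH : 1 ≤ H)
    (hp : ∀ x : ℂ, 1 / 16 < ‖x‖ → p x = 0) : fa r c H p 0 = 0 := by
  unfold fa
  have h : tw1 c H p 0 = 0 := by
    unfold tw1
    rw [hp, mul_zero]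
    rw [zero_sub, mul_neg, mul_one, norm_neg, Complex.norm_real, Real.norm_eq_abs,
      abs_of_pos (by linarith)]
    linarith
  simp [h]

section NF

variable {K : Type} [Field K] [NumberField K]

theorem ang_int (cp : InfinitePlace K → ℂ) (H : InfinitePlace K → ℝ)
    (p : InfinitePlace K → ℂ → ℂ) (hp : ∀ v, Continuous (p v)) (s : Bool) (x : K)
    (y : InfinitePlace K → ℝ) :
    ∫⁻ θ in An K, ENNReal.ofReal (‖Wg cp H p x y (om s θ)‖ ^ 2) =
      ∏ v, fa (rv v) (cp v) (H v) (p v) (v x * Real.exp (y v / 2)) := by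
  set h : InfinitePlace K → ℝ → ℝ≥0∞ := fun v t => ENNReal.ofReal (‖tw1 (cp v) (H v) (p v)
    (v.embedding x * ((Real.exp (y v / 2) : ℝ) : ℂ) *
      (if s then aq (rv v) t else (starRingEnd ℂ) (aq (rv v) t)))‖ ^ 2) with hh
  have h1 : ∀ θ : InfinitePlace K → ℝ,
      ENNReal.ofReal (‖Wg cp H p x y (om s θ)‖ ^ 2) = ∏ v, h v (θ v) := by
    intro θ
    unfold Wg
    rw [norm_prod, ← Finset.prod_pow, ENNReal.ofReal_prod_of_nonneg (fun v _ => by positivity)]
    refine Finset.prod_congr rfl fun v _ => ?_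
    rw [hh]
    simp only [wv, om, an_eq]
  have hm : ∀ v, Measurable (h v) := by
    intro v
    rw [hh]
    have h2 : Measurable (fun t : ℝ => (if s then aq (rv v) t else
        (starRingEnd ℂ) (aq (rv v) t))) := by
      cases s
      · simp only [Bool.false_eq_true, if_false]
        exact Complex.continuous_conj.measurable.comp (measurable_aq _)
      · simp only [if_true]
        exact measurable_aq _
    exact (((tw1_cont _ _ (hp v)).measurable.comp (h2.const_mul _)).norm.pow_const 2).ennreal_ofReal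
  rw [lintegral_congr h1]
  unfold An
  rw [volume_pi, Measure.restrict_pi_pi, lint_prod _ h hm]
  refine Finset.prod_congr rfl fun v _ => ?_
  have hn : ‖v.embedding x * ((Real.exp (y v / 2) : ℝ) : ℂ)‖ = v x * Real.exp (y v / 2) := by
    rw [norm_mul, Complex.norm_real, Real.norm_eq_abs, abs_of_pos (Real.exp_pos _),
      InfinitePlace.norm_embedding_eq]
  have hr : Rl (rv v) (v.embedding x * ((Real.exp (y v / 2) : ℝ) : ℂ)) := by
    have := Rl_wv v x y (ω := fun _ => 1) ⟨fun _ => by simp, fun _ _ => by simp⟩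
    unfold wv at this
    rwa [mul_one] at this
  unfold fa
  rw [← hn, ← rot_pos (fun w => ENNReal.ofReal (‖tw1 (cp v) (H v) (p v) w‖ ^ 2)) (rv v) _ hr]
  cases s
  · rw [← rot_conj (fun w => ENNReal.ofReal (‖tw1 (cp v) (H v) (p v) w‖ ^ 2)) (rv v)]
    simp only [hh, Bool.false_eq_true, if_false]
  · simp only [hh, if_true]

/-- the average over the angles of the diagonal -/
noncomputable def gg (M : FI K) (cp : InfinitePlace K → ℂ) (H : InfinitePlace K → ℝ)
    (p : InfinitePlace K → ℂ → ℂ) (q : logSpace K × ℝ) : ℝ≥0∞ :=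
  ∑' x : {x : K // x ∈ M}, ∏ v, fa (rv v) (cp v) (H v) (p v)
    (v (x : K) * Real.exp (yM K M q.2 q.1 v / 2))

theorem gg_eq (M : FI K) (cp : InfinitePlace K → ℂ) (H : InfinitePlace K → ℝ)
    (p : InfinitePlace K → ℂ → ℂ) (hp : ∀ v, Continuous (p v)) (s : Bool) (z : logSpace K)
    (τ : ℝ) :
    ∫⁻ θ in An K, ∑' x : {x : K // x ∈ M},
      ENNReal.ofReal (‖Wg cp H p x (yM K M τ z) (om s θ)‖ ^ 2) = gg M cp H p (z, τ) := by
  have := countable_K K
  have hm : ∀ x : {x : K // x ∈ M}, Measurable (fun θ : InfinitePlace K → ℝ =>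
      ENNReal.ofReal (‖Wg cp H p (x : K) (yM K M τ z) (om s θ)‖ ^ 2)) := by
    intro x
    have h1 : Measurable (fun θ : InfinitePlace K → ℝ => Wg cp H p (x : K) (yM K M τ z) (om s θ)) := by
      unfold Wg
      refine Finset.measurable_fun_prod _ fun v _ => ?_
      have h2 : Measurable (fun t : ℝ => (if s then aq (rv v) t else
          (starRingEnd ℂ) (aq (rv v) t))) := by
        cases s
        · simp only [Bool.false_eq_true, if_false]
          exact Complex.continuous_conj.measurable.comp (measurable_aq _)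
        · simp only [if_true]
          exact measurable_aq _
      have h3 : Measurable (fun θ : InfinitePlace K → ℝ => wv v (x : K) (yM K M τ z) (om s θ)) := by
        unfold wv om
        simp only [an_eq]
        exact (h2.comp (measurable_pi_apply v)).const_mul _
      exact (tw1_cont _ _ (hp v)).measurable.comp h3
    exact (h1.norm.pow_const 2).ennreal_ofReal
  rw [lintegral_tsum fun x => (hm x).aemeasurable]
  unfold gg
  refine tsum_congr fun x => ?_
  exact ang_int cp H p hp s _ _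

open scoped Classical in
theorem gg_meas (M : FI K) (cp : InfinitePlace K → ℂ) (H : InfinitePlace K → ℝ)
    (p : InfinitePlace K → ℂ → ℂ) (hp : ∀ v, Continuous (p v)) : Measurable (gg M cp H p) := by
  have := countable_K K
  unfold gg
  refine Measurable.tsum fun x => ?_
  refine Finset.measurable_fun_prod _ fun v _ => ?_
  refine (fa_meas _ _ _ (hp v)).comp ?_
  have h1 : Continuous (fun q : logSpace K × ℝ => yM K M q.2 q.1 v) :=
    (continuous_apply v).comp (yM_cont K M)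
  exact (continuous_const.mul (Real.continuous_exp.comp (h1.div_const 2))).measurable

open scoped Classical in
theorem gg_unit (M : FI K) (cp : InfinitePlace K → ℂ) (H : InfinitePlace K → ℝ)
    (p : InfinitePlace K → ℂ → ℂ) (z : logSpace K) (τ : ℝ) (l : logSpace K)
    (hl : l ∈ unitLattice K) : gg M cp H p (z + l, τ) = gg M cp H p (z, τ) := by
  obtain ⟨u, -, rfl⟩ := hl
  change gg M cp H p (z + logEmbedding K (Additive.ofMul (Additive.toMul u)), τ) = _
  unfold gg
  rw [← (eM K M (Additive.toMul u)).tsum_eq (fun x : {x : K // x ∈ M} =>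
    ∏ v, fa (rv v) (cp v) (H v) (p v) (v (x : K) * Real.exp (yM K M τ z v / 2)))]
  refine tsum_congr fun x => ?_
  refine Finset.prod_congr rfl fun v _ => ?_
  congr 1
  have h2 : v ((Additive.toMul u : (𝓞 K)ˣ) : K) ≠ 0 := by
    rw [Ne, map_eq_zero]
    simp
  have h3 : 0 < v ((Additive.toMul u : (𝓞 K)ˣ) : K) := lt_of_le_of_ne (apply_nonneg _ _) (Ne.symm h2)
  change _ = v (((Additive.toMul u : (𝓞 K)ˣ) : K) * x.1) * Real.exp (yM K M τ z v / 2)
  rw [yM_unit, map_mul, add_div, mul_div_cancel_left₀ _ two_ne_zero, Real.exp_add, Real.exp_log h3]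
  ring

/-- the theta function without the constant term -/
theorem th_sub (hTH : T_TH) (M : FI K) (hM : M ≠ 0) (y : InfinitePlace K → ℝ) :
    ENNReal.ofReal (th K M y - 1) = ∑' x : {x : K // x ∈ M},
      (open scoped Classical in
        if x.1 = 0 then 0 else ENNReal.ofReal (Real.exp (-Real.pi * qK K y x.1))) := by
  classical
  have hs := (hTH K M hM y).1
  have h0 : (0 : K) ∈ M := Submodule.zero_mem (M : Submodule (𝓞 K) K)
  have h1 := hs.tsum_eq_add_tsum_ite ⟨0, h0⟩
  have hq : qK K y (0 : K) = 0 := by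
    unfold qK
    refine Finset.sum_eq_zero fun v _ => ?_
    rw [map_zero]
    ring
  have h2 : th K M y - 1 = ∑' x : {x : K // x ∈ M}, if x = ⟨0, h0⟩ then 0 else
      Real.exp (-Real.pi * qK K y x) := by
    unfold th
    rw [h1]
    simp only [hq, mul_zero, Real.exp_zero]
    ring
  have h3 : Summable (fun x : {x : K // x ∈ M} => if x = ⟨0, h0⟩ then 0 else
      Real.exp (-Real.pi * qK K y x)) := by
    refine Summable.of_nonneg_of_le (fun x => ?_) (fun x => ?_) hs
    · split_ifs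
      · exact le_rfl
      · exact (Real.exp_pos _).le
    · split_ifs
      · exact (Real.exp_pos _).le
      · exact le_rfl
  rw [h2, ENNReal.ofReal_tsum_of_nonneg _ h3]
  · refine tsum_congr fun x => ?_
    by_cases h : x.1 = 0
    · rw [if_pos (Subtype.ext h), if_pos h, ENNReal.ofReal_zero]
    · rw [if_neg (fun h' => h (by rw [h'])), if_neg h]
  · intro x
    split_ifs
    · exact le_rfl
    · exact (Real.exp_pos _).le

open scoped Classical in
theorem th_meas (hTH : T_TH) (M : FI K) (hM : M ≠ 0) (a : ℝ) : Measurable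
    (fun q : logSpace K × ℝ => ENNReal.ofReal (th K M (fun v => yM K M q.2 q.1 v - a) - 1)) := by
  have := countable_K K
  simp only [th_sub hTH M hM]
  refine Measurable.tsum fun x => ?_
  by_cases h : x.1 = 0
  · simp only [if_pos h]
    exact measurable_const
  · simp only [if_neg h]
    refine Continuous.measurable ?_ |>.ennreal_ofReal
    unfold qK
    have h1 : ∀ v : InfinitePlace K, Continuous (fun q : logSpace K × ℝ => yM K M q.2 q.1 v) :=
      fun v => (continuous_apply v).comp (yM_cont K M)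
    fun_prop

theorem prod_bd {n : ℕ} (hK : Module.finrank ℚ K = n) (A : ℕ) (C₃ B : ℝ) (hC₃ : 0 ≤ C₃)
    (hB : 1 ≤ B) (H : InfinitePlace K → ℝ) (hH : ∀ v, 1 ≤ H v) (a : InfinitePlace K → ℝ)
    (ha : ∀ v, 0 ≤ a v) :
    ∏ v, (C₃ * B ^ 2 * H v ^ (-(dg (rv v) : ℝ)) * (1 + a v) ^ (-(A : ℝ))) ≤
      (max 1 C₃) ^ n * B ^ (2 * n) * (HH H)⁻¹ * ∏ v, (1 + a v) ^ (-(A : ℝ)) := by
  have hm : 1 ≤ max 1 C₃ := le_max_left _ _
  have h1 : ∏ v, H v ^ (-(dg (rv v) : ℝ)) = (HH H)⁻¹ := by
    unfold HH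
    rw [← Finset.prod_inv_distrib]
    refine Finset.prod_congr rfl fun v _ => ?_
    rw [dg_rv, Real.rpow_neg (by linarith [hH v]), Real.rpow_natCast]
  rw [Finset.prod_mul_distrib, Finset.prod_mul_distrib, h1, Finset.prod_const, Finset.card_univ]
  have h2 : 0 < HH H := lt_of_lt_of_le one_pos (one_le_HH hH)
  have h3 : 0 ≤ ∏ v, (1 + a v) ^ (-(A : ℝ)) := Finset.prod_nonneg fun v _ =>
    Real.rpow_nonneg (by linarith [ha v]) _
  have h4 : (C₃ * B ^ 2) ^ Fintype.card (InfinitePlace K) ≤ (max 1 C₃) ^ n * B ^ (2 * n) := by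
    calc (C₃ * B ^ 2) ^ Fintype.card (InfinitePlace K)
        ≤ (max 1 C₃ * B ^ 2) ^ Fintype.card (InfinitePlace K) := by
          apply pow_le_pow_left₀ (by positivity)
          exact mul_le_mul_of_nonneg_right (le_max_right _ _) (by positivity)
      _ ≤ (max 1 C₃ * B ^ 2) ^ n := by
          apply pow_le_pow_right₀ _ (card_places_le hK)
          exact one_le_mul_of_one_le_of_one_le hm (one_le_pow₀ hB)
      _ = (max 1 C₃) ^ n * B ^ (2 * n) := by rw [mul_pow, ← pow_mul]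
  apply mul_le_mul_of_nonneg_right _ h3
  exact mul_le_mul_of_nonneg_right h4 (by positivity)

theorem qK_eq (y a : InfinitePlace K → ℝ) (x : K) (j : ℕ)
    (ha : ∀ v, a v = v x * Real.exp (y v / 2)) :
    ∑ v : InfinitePlace K, (v.mult : ℝ) * ((a v / 2 ^ j) ^ 2 + ((0 : ℝ) / 2 ^ j) ^ 2) =
      qK K (fun v => y v - 2 * Real.log (2 ^ j)) x := by
  unfold qK
  refine Finset.sum_congr rfl fun v _ => ?_
  have h1 : Real.exp (y v - 2 * Real.log (2 ^ j)) = Real.exp (y v / 2) ^ 2 / (2 ^ j) ^ 2 := by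
    rw [Real.exp_sub, ← Real.exp_nat_mul, mul_comm (2 : ℝ) (Real.log (2 ^ j)), Real.exp_mul,
      Real.exp_log (by positivity)]
    congr 1
    · congr 1
      push_cast
      ring
    · rw [← Real.rpow_natCast ((2 : ℝ) ^ j) 2]
      norm_num
  rw [h1, ha v]
  ring

open scoped Classical in
theorem key {n A : ℕ} (hn : 0 < n) {C₂ C₃ C₄ : ℝ} (hC₂ : 0 ≤ C₂) (hC₃ : 0 ≤ C₃) (hC₄ : 0 ≤ C₄)
    (hTH : T_TH) (hK : Module.finrank ℚ K = n)
    (h2 : ∀ f : InfinitePlace K → ℝ → ℝ≥0∞, (∀ v, Measurable (f v)) →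
      ∫⁻ b in BX K n, ∏ v, f v (yc K b.2 b.1 v) ≤ ENNReal.ofReal C₂ *
        ∏ v, ∫⁻ s in Icc (-(1 / (n : ℝ))) (1 / (n : ℝ)), f v s)
    (h3 : ∀ (r : Bool) (B H : ℝ) (c a : ℂ) (p : ℂ → ℂ), 0 ≤ B → Bmp 0 B p → 1 ≤ H → Rl r a →
      ∫⁻ b in Icc (-(1 / (n : ℝ))) (1 / (n : ℝ)), ∫⁻ θ in Icc (0 : ℝ) (2 * Real.pi),
        ENNReal.ofReal (‖tw1 c H p (a * ((Real.exp (b / 2) : ℝ) : ℂ) * aq r θ)‖ ^ 2) ≤
      ENNReal.ofReal (C₃ * B ^ 2 * H ^ (-(dg r : ℝ)) * (1 + ‖a‖) ^ (-(A : ℝ))))
    (h4 : ∀ (ι : Type) [Fintype ι] (e : ι → ℕ) (a b : ι → ℝ), ∑ i, e i = n →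
      (∀ i, 1 ≤ e i ∧ e i ≤ 2) → (∀ i, 0 ≤ a i ∧ 0 ≤ b i) →
      Summable (fun j : ℕ => (2 : ℝ) ^ (-((A * j : ℕ) : ℝ)) *
        Real.exp (-Real.pi * ∑ i, (e i : ℝ) * ((a i / 2 ^ j) ^ 2 + (b i / 2 ^ j) ^ 2))) ∧
      ∏ i, ((1 + a i) ^ (-(A : ℝ)) * (1 + b i) ^ (-(A : ℝ))) ≤
        C₄ * ∑' j : ℕ, (2 : ℝ) ^ (-((A * j : ℕ) : ℝ)) *
          Real.exp (-Real.pi * ∑ i, (e i : ℝ) * ((a i / 2 ^ j) ^ 2 + (b i / 2 ^ j) ^ 2)))
    (M : FI K) (cp : InfinitePlace K → ℂ) (H : InfinitePlace K → ℝ)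
    (p : InfinitePlace K → ℂ → ℂ) (B : ℝ) (hM : M ≠ 0) (hcp : Prm cp H) (hB : 1 ≤ B)
    (hp : ∀ v, Bmp 0 B (p v)) (z : logSpace K) (τ : ℝ) :
    ∫⁻ b in BX K n, gg M cp H p (z + b.1, τ + b.2) ≤
      ENNReal.ofReal (C₂ * ((max 1 C₃) ^ n * B ^ (2 * n) * (HH H)⁻¹) * C₄) *
        ∑' j : ℕ, ENNReal.ofReal ((2 : ℝ) ^ (-((A * j : ℕ) : ℝ))) *
          ENNReal.ofReal (th K M (fun v => yM K M τ z v - 2 * Real.log (2 ^ j)) - 1) := by
  have hcount := countable_K K
  have hcont : ∀ v, Continuous (p v) := fun v => (hp v).continuous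
  have hHH : 0 < HH H := lt_of_lt_of_le one_pos (one_le_HH hcp.one_le)
  have hB0 : 0 ≤ B := by linarith
  have hmx : 0 ≤ max 1 C₃ := le_trans zero_le_one (le_max_left _ _)
  set F : {x : K // x ∈ M} → InfinitePlace K → ℝ → ℝ≥0∞ := fun x v t =>
    fa (rv v) (cp v) (H v) (p v) (v (x : K) * Real.exp (yM K M τ z v / 2) * Real.exp (t / 2))
    with hF
  have hFm : ∀ x v, Measurable (F x v) := by
    intro x v
    rw [hF]
    refine (fa_meas _ _ _ (hcont v)).comp ?_
    fun_prop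
  have e1 : ∀ b : logSpace K × ℝ, gg M cp H p (z + b.1, τ + b.2) =
      ∑' x : {x : K // x ∈ M}, ∏ v, F x v (yc K b.2 b.1 v) := by
    intro b
    unfold gg
    refine tsum_congr fun x => Finset.prod_congr rfl fun v _ => ?_
    rw [hF]
    simp only
    rw [yM_add, add_div, Real.exp_add, mul_assoc]
  have hm : ∀ x : {x : K // x ∈ M}, Measurable (fun b : logSpace K × ℝ =>
      ∏ v, F x v (yc K b.2 b.1 v)) := by
    intro x
    refine Finset.measurable_fun_prod _ fun v _ => (hFm x v).comp ?_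
    exact ((continuous_apply v).comp (Pool.Agent.H61.GLB.yc_cont K)).measurable
  rw [lintegral_congr e1, lintegral_tsum fun x => (hm x).aemeasurable]
  set D : ℝ := C₂ * ((max 1 C₃) ^ n * B ^ (2 * n) * (HH H)⁻¹) * C₄ with hD
  have hD0 : 0 ≤ D := by positivity
  have hpt : ∀ x : {x : K // x ∈ M}, ∫⁻ b in BX K n, ∏ v, F x v (yc K b.2 b.1 v) ≤
      ENNReal.ofReal D * ∑' j : ℕ, ENNReal.ofReal ((2 : ℝ) ^ (-((A * j : ℕ) : ℝ))) *
        (if x.1 = 0 then 0 else ENNReal.ofReal (Real.exp (-Real.pi *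
          qK K (fun v => yM K M τ z v - 2 * Real.log (2 ^ j)) x.1))) := by
    intro x
    by_cases hx : x.1 = 0
    · have h0 : ∀ b : logSpace K × ℝ, ∏ v, F x v (yc K b.2 b.1 v) = 0 := by
        intro b
        have v : InfinitePlace K := Classical.arbitrary _
        refine Finset.prod_eq_zero (Finset.mem_univ v) ?_
        rw [hF]
        simp only
        rw [hx, map_zero, zero_mul, zero_mul]
        exact fa_zero _ _ (hcp.one_le v) (hp v).supp
      rw [lintegral_congr h0, lintegral_zero]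
      exact bot_le
    · simp only [if_neg hx]
      set a : InfinitePlace K → ℝ := fun v => v (x : K) * Real.exp (yM K M τ z v / 2) with ha
      have ha0 : ∀ v, 0 ≤ a v := fun v => mul_nonneg (apply_nonneg _ _) (Real.exp_pos _).le
      have hg := h4 (InfinitePlace K) (fun v => v.mult) a (fun _ => 0) (sum_mult hK)
        (fun v => mult_pos' v) (fun v => ⟨ha0 v, le_rfl⟩)
      have hq : ∀ j : ℕ, ∑ v : InfinitePlace K, (v.mult : ℝ) * ((a v / 2 ^ j) ^ 2 +
          ((0 : ℝ) / 2 ^ j) ^ 2) = qK K (fun v => yM K M τ z v - 2 * Real.log (2 ^ j)) x.1 :=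
        fun j => qK_eq (yM K M τ z) a x.1 j (fun v => rfl)
      simp only [hq, add_zero, Real.one_rpow, mul_one] at hg
      have hv : ∀ v, ∫⁻ s in Icc (-(1 / (n : ℝ))) (1 / (n : ℝ)), F x v s ≤
          ENNReal.ofReal (C₃ * B ^ 2 * H v ^ (-(dg (rv v) : ℝ)) * (1 + a v) ^ (-(A : ℝ))) := by
        intro v
        have h5 := h3 (rv v) B (H v) (cp v) ((a v : ℝ) : ℂ) (p v) hB0 (hp v) (hcp.one_le v)
          (fun _ => Complex.ofReal_im _)
        rw [Complex.norm_real, Real.norm_eq_abs, abs_of_nonneg (ha0 v)] at h5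
        refine le_trans (le_of_eq ?_) h5
        refine lintegral_congr fun s => ?_
        rw [hF]
        simp only [fa, ha]
        refine lintegral_congr fun θ => ?_
        push_cast
        rfl
      calc ∫⁻ b in BX K n, ∏ v, F x v (yc K b.2 b.1 v)
          ≤ ENNReal.ofReal C₂ * ∏ v, ∫⁻ s in Icc (-(1 / (n : ℝ))) (1 / (n : ℝ)), F x v s :=
            h2 (F x) (hFm x)
        _ ≤ ENNReal.ofReal C₂ * ∏ v, ENNReal.ofReal (C₃ * B ^ 2 * H v ^ (-(dg (rv v) : ℝ)) *
            (1 + a v) ^ (-(A : ℝ))) := by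
            gcongr with v
            exact hv v
        _ = ENNReal.ofReal (C₂ * ∏ v, (C₃ * B ^ 2 * H v ^ (-(dg (rv v) : ℝ)) *
            (1 + a v) ^ (-(A : ℝ)))) := by
            rw [ENNReal.ofReal_mul hC₂, ENNReal.ofReal_prod_of_nonneg]
            intro v _
            have := hcp.one_le v
            have := ha0 v
            positivity
        _ ≤ ENNReal.ofReal (D * ∑' j : ℕ, (2 : ℝ) ^ (-((A * j : ℕ) : ℝ)) *
            Real.exp (-Real.pi * qK K (fun v => yM K M τ z v - 2 * Real.log (2 ^ j)) x.1)) := by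
            apply ENNReal.ofReal_le_ofReal
            calc C₂ * ∏ v, (C₃ * B ^ 2 * H v ^ (-(dg (rv v) : ℝ)) * (1 + a v) ^ (-(A : ℝ)))
                ≤ C₂ * ((max 1 C₃) ^ n * B ^ (2 * n) * (HH H)⁻¹ *
                  ∏ v, (1 + a v) ^ (-(A : ℝ))) :=
                  mul_le_mul_of_nonneg_left (prod_bd hK A C₃ B hC₃ hB H hcp.one_le a ha0) hC₂
              _ ≤ C₂ * ((max 1 C₃) ^ n * B ^ (2 * n) * (HH H)⁻¹ * (C₄ * ∑' j : ℕ,
                  (2 : ℝ) ^ (-((A * j : ℕ) : ℝ)) * Real.exp (-Real.pi *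
                    qK K (fun v => yM K M τ z v - 2 * Real.log (2 ^ j)) x.1))) := by
                  apply mul_le_mul_of_nonneg_left _ hC₂
                  exact mul_le_mul_of_nonneg_left hg.2 (by positivity)
              _ = _ := by rw [hD]; ring
        _ = ENNReal.ofReal D * ∑' j : ℕ, ENNReal.ofReal ((2 : ℝ) ^ (-((A * j : ℕ) : ℝ))) *
            ENNReal.ofReal (Real.exp (-Real.pi *
              qK K (fun v => yM K M τ z v - 2 * Real.log (2 ^ j)) x.1)) := by
            rw [ENNReal.ofReal_mul hD0, ENNReal.ofReal_tsum_of_nonneg (fun j => by positivity) hg.1]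
            congr 1
            refine tsum_congr fun j => ?_
            rw [ENNReal.ofReal_mul (by positivity)]
  refine (ENNReal.tsum_le_tsum hpt).trans (le_of_eq ?_)
  rw [ENNReal.tsum_mul_left, ENNReal.tsum_comm]
  congr 1
  refine tsum_congr fun j => ?_
  rw [ENNReal.tsum_mul_left, th_sub hTH M hM]

end NF

/-- (DI) the average of the diagonal. -/
theorem pf_DI (hAVG : V_AVG) (hJB : V_JB) (hLD : V_LD) (hGS : V_GS) (hTH : T_TH) : V_DI := by
  classical
  intro n A hn hA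
  obtain ⟨C₁, hC₁, h1⟩ := hAVG n hn
  obtain ⟨C₂, hC₂, h2⟩ := hJB n hn
  obtain ⟨C₃, hC₃, h3⟩ := hLD n A hn
  obtain ⟨C₄, hC₄, h4⟩ := hGS n A hA
  have hmx : 0 ≤ max 1 C₃ := le_trans zero_le_one (le_max_left _ _)
  refine ⟨C₁ * (C₂ * (max 1 C₃) ^ n * C₄), by positivity, ?_⟩
  intro K _ _ hK M cp H p B s τ₁ hM hcp hB hp
  have hcont : ∀ v, Continuous (p v) := fun v => (hp v).continuous
  have hHH : 0 < HH H := lt_of_lt_of_le one_pos (one_le_HH hcp.one_le)
  simp only [gg_eq M cp H p hcont s]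
  refine (h1 K hK (gg M cp H p) (gg_meas M cp H p hcont)
    (fun z l hl τ => gg_unit M cp H p z τ l hl) τ₁).trans ?_
  set D : ℝ := C₂ * ((max 1 C₃) ^ n * B ^ (2 * n) * (HH H)⁻¹) * C₄ with hD
  have hD0 : 0 ≤ D := by
    have : 0 ≤ B := by linarith
    positivity
  have hm : ∀ j : ℕ, Measurable (fun q : logSpace K × ℝ => ENNReal.ofReal
      ((2 : ℝ) ^ (-((A * j : ℕ) : ℝ))) * ENNReal.ofReal
        (th K M (fun v => yM K M q.2 q.1 v - 2 * Real.log (2 ^ j)) - 1)) :=
    fun j => (th_meas hTH M hM _).const_mul _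
  calc ENNReal.ofReal C₁ * ∫⁻ z in Fd K, ∫⁻ τ in Icc (τ₁ - 1) (τ₁ + 2), ∫⁻ b in BX K n,
        gg M cp H p (z + b.1, τ + b.2)
      ≤ ENNReal.ofReal C₁ * ∫⁻ z in Fd K, ∫⁻ τ in Icc (τ₁ - 1) (τ₁ + 2), ENNReal.ofReal D *
        ∑' j : ℕ, ENNReal.ofReal ((2 : ℝ) ^ (-((A * j : ℕ) : ℝ))) *
          ENNReal.ofReal (th K M (fun v => yM K M τ z v - 2 * Real.log (2 ^ j)) - 1) := by
        gcongr with z τ
        exact key hn hC₂ hC₃ hC₄ hTH hK (h2 K hK) h3 h4 M cp H p B hM hcp hB hp z τ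
    _ = ENNReal.ofReal C₁ * (ENNReal.ofReal D * ∑' j : ℕ, ENNReal.ofReal
        ((2 : ℝ) ^ (-((A * j : ℕ) : ℝ))) * ∫⁻ z in Fd K, ∫⁻ τ in Icc (τ₁ - 1) (τ₁ + 2),
          ENNReal.ofReal (th K M (fun v => yM K M τ z v - 2 * Real.log (2 ^ j)) - 1)) := by
        congr 1
        simp only [lintegral_const_mul' _ _ ENNReal.ofReal_ne_top]
        congr 1
        have e1 : ∀ z : logSpace K, ∫⁻ τ in Icc (τ₁ - 1) (τ₁ + 2), ∑' j : ℕ, ENNReal.ofReal
            ((2 : ℝ) ^ (-((A * j : ℕ) : ℝ))) * ENNReal.ofReal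
              (th K M (fun v => yM K M τ z v - 2 * Real.log (2 ^ j)) - 1) =
            ∑' j : ℕ, ∫⁻ τ in Icc (τ₁ - 1) (τ₁ + 2), ENNReal.ofReal
              ((2 : ℝ) ^ (-((A * j : ℕ) : ℝ))) * ENNReal.ofReal
              (th K M (fun v => yM K M τ z v - 2 * Real.log (2 ^ j)) - 1) := by
          intro z
          exact lintegral_tsum fun j =>
            ((hm j).comp (measurable_prodMk_left (x := z))).aemeasurable
        rw [lintegral_congr e1, lintegral_tsum fun j =>
          ((hm j).lintegral_prod_right').aemeasurable]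
        refine tsum_congr fun j => ?_
        simp only [lintegral_const_mul' _ _ ENNReal.ofReal_ne_top]
    _ = _ := by
        rw [← mul_assoc, ← ENNReal.ofReal_mul hC₁]
        congr 2
        rw [hD]
        ring

end Pool.Agent.H39.DW
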